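import Mathlib

open Finset

namespace H11.KSph

/-- Integer points with `|m_1|^k + ... + |m_d|^k = n`. -/
def S (k d n : ℕ) : Set (Fin d → ℤ) := {m | ∑ i, |m i| ^ k = (n : ℤ)}

/-- The count `N_{k,d}(r) ≍ r^{d-k}` holds in dimension `d` (here `n = r^k`). -/
def Holds (k d : ℕ) : Prop :=
  ∃ c C r₀ : ℝ, 0 < c ∧ c ≤ C ∧ ∀ (r : ℝ) (n : ℕ), 0 < r → r ^ k = n → (S k d n).Nonempty →
    r₀ ≤ r → c * r ^ ((d : ℤ) - k) ≤ (S k d n).ncard ∧ ((S k d n).ncard : ℝ) ≤ C * r ^ ((d : ℤ) - k)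

theorem S_fin {k : ℕ} (hk : k ≠ 0) (d n : ℕ) : (S k d n).Finite := by
  refine (Set.Finite.pi' (fun _ : Fin d => Set.finite_Icc (-(n : ℤ)) n)).subset fun m hm i => ?_
  have h1 : |m i| ^ k ≤ n := by
    rw [← (show ∑ i, |m i| ^ k = (n : ℤ) from hm)]
    exact single_le_sum (f := fun i => |m i| ^ k) (fun j _ => by positivity) (mem_univ i)
  have h2 : |m i| ≤ |m i| ^ k := by
    rcases (abs_nonneg (m i)).eq_or_lt with h | h
    · rw [← h]; positivity
    · exact le_self_pow₀ h hk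
  exact abs_le.1 (h2.trans h1)

theorem S_ne {k d : ℕ} (hk : k ≠ 0) (hd : 0 < d) (t : ℕ) : (S k d (t ^ k)).Nonempty := by
  refine ⟨Pi.single ⟨0, hd⟩ t, ?_⟩
  simp only [S, Set.mem_setOf_eq]
  rw [sum_eq_single ⟨0, hd⟩]
  · simp
  · intro b _ hb; simp [hb, hk]
  · simp

theorem small {k d : ℕ} (hd : 0 < d) (h : d < k) : ¬ Holds k d := by
  rintro ⟨c, C, r₀, hc, hC, H⟩
  obtain ⟨t, ht⟩ := exists_nat_gt (max (max C r₀) 1)
  have t1 : (1 : ℝ) < t := lt_of_le_of_lt (le_max_right _ _) ht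
  have tC : C < t := lt_of_le_of_lt ((le_max_left _ _).trans (le_max_left _ _)) ht
  have tr : r₀ < t := lt_of_le_of_lt ((le_max_right _ _).trans (le_max_left _ _)) ht
  have hk : k ≠ 0 := by omega
  have h1 := (H t (t ^ k) (by linarith) (by simp) (S_ne hk hd t) tr.le).2
  have h2 : (1 : ℝ) ≤ (S k d (t ^ k)).ncard := by
    exact_mod_cast (Set.ncard_pos (S_fin hk d _)).2 (S_ne hk hd t)
  have h3 : (t : ℝ) ^ ((d : ℤ) - k) ≤ (t : ℝ) ^ (-1 : ℤ) := zpow_le_zpow_right₀ t1.le (by omega)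
  have h4 : C * (t : ℝ) ^ (-1 : ℤ) < 1 := by
    rw [zpow_neg_one, ← div_eq_mul_inv, div_lt_one (by linarith)]; exact tC
  have h5 := mul_le_mul_of_nonneg_left h3 (hc.le.trans hC)
  linarith

theorem descent {k d p g : ℕ} (hp : 1 < p) (hk : k ≠ 0) (hg : g ≤ k) (hd : d < p ^ g)
    (hu : ∀ x : ℤ, ¬ (p : ℤ) ∣ x → ((p : ℤ) ^ g) ∣ |x| ^ k - 1) (n : ℕ) :
    (S k d (p ^ k * n)).ncard ≤ (S k d n).ncard := by
  classical
  refine le_trans (Set.ncard_le_ncard (t := (fun m i => (p : ℤ) * m i) '' S k d n) ?_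
    ((S_fin hk d n).image _)) (Set.ncard_image_le (S_fin hk d n))
  intro m hm
  have hm' : ∑ i, |m i| ^ k = (p : ℤ) ^ k * n := by simpa [S] using hm
  have h1 : ((p : ℤ) ^ g) ∣ ∑ i, (|m i| ^ k - if (p : ℤ) ∣ m i then 0 else 1) := by
    refine dvd_sum fun i _ => ?_
    split_ifs with h
    · rw [sub_zero]
      exact (pow_dvd_pow _ hg).trans (pow_dvd_pow_of_dvd ((dvd_abs _ _).2 h) k)
    · exact hu _ h
  rw [sum_sub_distrib, hm'] at h1
  have h2 : ((p : ℤ) ^ g) ∣ ∑ i, (if (p : ℤ) ∣ m i then (0 : ℤ) else 1) :=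
    (dvd_sub_right (Dvd.dvd.mul_right (pow_dvd_pow _ hg) _)).1 h1
  have h3 : ∑ i, (if (p : ℤ) ∣ m i then (0 : ℤ) else 1) ≤ d :=
    (sum_le_card_nsmul _ _ 1 fun i _ => by split_ifs <;> norm_num).trans (by simp)
  have h0 : ∀ i ∈ (univ : Finset (Fin d)), 0 ≤ (if (p : ℤ) ∣ m i then (0 : ℤ) else 1) :=
    fun i _ => by split_ifs <;> norm_num
  have hd' : (d : ℤ) < (p : ℤ) ^ g := by exact_mod_cast hd
  have h4 := Int.eq_zero_of_dvd_of_nonneg_of_lt (sum_nonneg h0) (by linarith) h2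
  have h5 : ∀ i, (p : ℤ) ∣ m i := fun i => by
    have := (sum_eq_zero_iff_of_nonneg h0).1 h4 i (mem_univ i)
    by_contra h; simp [h] at this
  choose y hy using h5
  refine ⟨y, ?_, funext fun i => (hy i).symm⟩
  simp only [S, Set.mem_setOf_eq]
  simp only [hy, abs_mul, mul_pow, ← mul_sum, Nat.abs_cast] at hm'
  exact mul_left_cancel₀ (by positivity) hm'

theorem large {k d p g : ℕ} (hp : 1 < p) (hk : k ≠ 0) (hg : g ≤ k) (hkd : k < d) (hd : d < p ^ g)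
    (hu : ∀ x : ℤ, ¬ (p : ℤ) ∣ x → ((p : ℤ) ^ g) ∣ |x| ^ k - 1) : ¬ Holds k d := by
  rintro ⟨c, C, r₀, hc, hC, H⟩
  have hb : ∀ j : ℕ, (S k d ((p ^ j) ^ k)).ncard ≤ (S k d 1).ncard := by
    intro j
    induction j with
    | zero => simp
    | succ j ih =>
      rw [pow_succ', mul_pow]
      exact (descent hp hk hg hd hu _).trans ih
  obtain ⟨j, hj⟩ := pow_unbounded_of_one_lt (max r₀ (((S k d 1).ncard : ℝ) / c))
    (show (1 : ℝ) < p by exact_mod_cast hp)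
  have p1 : (1 : ℝ) ≤ (p : ℝ) ^ j := one_le_pow₀ (by exact_mod_cast hp.le)
  have h1 := (H ((p : ℝ) ^ j) ((p ^ j) ^ k) (by linarith) (by simp) (S_ne hk (by omega) _)
    ((le_max_left _ _).trans hj.le)).1
  have h2 : ((S k d ((p ^ j) ^ k)).ncard : ℝ) ≤ (S k d 1).ncard := by exact_mod_cast hb j
  have h3 : ((p : ℝ) ^ j) ^ (1 : ℤ) ≤ ((p : ℝ) ^ j) ^ ((d : ℤ) - k) :=
    zpow_le_zpow_right₀ p1 (by omega)
  rw [zpow_one] at h3
  have h4 := lt_of_le_of_lt (le_max_right _ _) hj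
  rw [div_lt_iff₀ hc] at h4
  nlinarith

theorem two_pow (a : ℕ) (x : ℤ) (hx : ¬ (2 : ℤ) ∣ x) :
    (2 : ℤ) ^ (a + 3) ∣ |x| ^ (2 ^ (a + 1)) - 1 := by
  induction a with
  | zero =>
    have h : Odd x := Int.not_even_iff_odd.1 (fun h => hx h.two_dvd)
    have := Int.eight_dvd_sq_sub_one_of_odd h
    simpa [sq_abs] using this
  | succ a ih =>
    have e : |x| ^ (2 ^ (a + 1 + 1)) - 1 =
        (|x| ^ (2 ^ (a + 1)) - 1) * ((|x| ^ (2 ^ (a + 1)) - 1) + 2) := by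
      rw [pow_succ 2 (a + 1), pow_mul]; ring
    rw [e, pow_succ 2 (a + 3)]
    exact mul_dvd_mul ih (dvd_add ((dvd_pow_self 2 (by omega)).trans ih) dvd_rfl)

theorem root_ex {p k : ℕ} (hp : 0 < p) (hk : k ≠ 0) (hc : Nat.Coprime k p) (m : ℕ) (u : ℤ)
    (hu : (p : ℤ) ∣ u - 1) : ∃ z : ℕ, z < p ^ m ∧ ((p : ℤ) ^ m) ∣ (z : ℤ) ^ k - u := by
  have hq : 0 < p ^ m := by positivity
  have h1 : ((p : ℤ) ^ m) ∣ u ^ (p ^ m) - 1 := by
    have := dvd_sub_pow_of_dvd_sub hu m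
    rw [one_pow] at this
    exact (pow_dvd_pow _ (Nat.le_succ m)).trans this
  have h2 := Nat.ModEq.pow_totient (Nat.Coprime.pow_right m hc)
  obtain ⟨e, he⟩ : ∃ e, Nat.totient (p ^ m) = e + 1 :=
    Nat.exists_eq_succ_of_ne_zero (Nat.totient_pos.2 hq).ne'
  rw [he] at h2
  obtain ⟨f, hf⟩ := (Nat.modEq_iff_dvd' (Nat.one_le_pow _ _ (Nat.pos_of_ne_zero hk))).1 h2.symm
  have hf' : k ^ e * k = p ^ m * f + 1 := by
    have := Nat.one_le_pow (e + 1) k (Nat.pos_of_ne_zero hk)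
    rw [← pow_succ]; omega
  have hQ : (0 : ℤ) < (p : ℤ) ^ m := by positivity
  have h3 : u ^ (p ^ m) ≡ 1 [ZMOD (p : ℤ) ^ m] := (Int.modEq_iff_dvd.2 h1).symm
  refine ⟨((u ^ (k ^ e)) % (p : ℤ) ^ m).toNat, ?_, ?_⟩
  · have := Int.emod_lt_of_pos (u ^ (k ^ e)) hQ
    have h0 := Int.emod_nonneg (u ^ (k ^ e)) hQ.ne'
    zify; rw [Int.toNat_of_nonneg h0]; exact this
  · rw [Int.toNat_of_nonneg (Int.emod_nonneg _ hQ.ne')]
    refine Int.modEq_iff_dvd.1 (Int.ModEq.symm ?_)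
    refine ((Int.mod_modEq _ _).pow k).trans ?_
    rw [← pow_mul, hf', pow_succ, pow_mul]
    simpa using (h3.pow f).mul_right u

theorem many (j M : ℕ) : ∃ (N : ℕ) (F : Finset (Fin (j + 2) → ℕ)), M < F.card ∧
    ∀ x ∈ F, ∑ t, x t ^ (j + 2) = N ∧ 0 < x 1 := by
  classical
  obtain ⟨k, hk⟩ : ∃ k, k = j + 2 := ⟨_, rfl⟩
  obtain ⟨p, hp⟩ : ∃ p, p = k ^ k + 1 := ⟨_, rfl⟩
  have hkp : k < p := by
    have := Nat.le_self_pow (show k ≠ 0 by omega) k
    omega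
  have hp0 : 0 < p := by omega
  have hc : Nat.Coprime k p := by
    rw [hp, show k ^ k = k * k ^ (k - 1) by rw [← pow_succ']; congr 1; omega]
    simp
  let w : (Fin (j + 1) → ℕ) → Fin (j + 1) → ℕ := fun b s => p * b s + if s = 0 then k else 0
  have hw : ∀ b, (p : ℤ) ∣ -(∑ s, (w b s : ℤ) ^ k) - 1 := by
    intro b
    have h1 : (p : ℤ) ∣ ∑ s, ((w b s : ℤ) ^ k - (if s = 0 then (k : ℤ) else 0) ^ k) :=
      dvd_sum fun s _ => (Dvd.intro (b s : ℤ) (by simp only [w]; push_cast; ring)).trans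
        (sub_dvd_pow_sub_pow _ _ k)
    have h2 : ∑ s : Fin (j + 1), (if s = 0 then (k : ℤ) else 0) ^ k = (k : ℤ) ^ k := by
      rw [sum_eq_single 0] <;> simp +contextual [show k ≠ 0 by omega]
    rw [sum_sub_distrib, h2] at h1
    have h3 : -(∑ s, (w b s : ℤ) ^ k) - 1 = -(∑ s, (w b s : ℤ) ^ k - (k : ℤ) ^ k) - p := by
      rw [hp]; push_cast; ring
    rw [h3]
    exact dvd_sub h1.neg_right dvd_rfl
  choose z hz hz' using fun m b => root_ex hp0 (show k ≠ 0 by omega) hc m _ (hw b)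
  obtain ⟨J, hJ⟩ : ∃ J, J = (k + 1) * M * p ^ (j + 1) + 1 := ⟨_, rfl⟩
  let P : Finset (Σ _ : ℕ, ℕ × (Fin (j + 1) → ℕ)) := (range J).sigma fun i =>
    range (p ^ (k * J + i - k * i)) ×ˢ Fintype.piFinset fun _ => range (p ^ (k * J + i - 1))
  let y : (Σ _ : ℕ, ℕ × (Fin (j + 1) → ℕ)) → Fin (j + 2) → ℕ := fun q =>
    Fin.cons (p ^ (k * q.1) * q.2.1 + z (k * q.1) q.2.2) (w q.2.2)
  let g : (Σ _ : ℕ, ℕ × (Fin (j + 1) → ℕ)) → Fin (j + 2) → ℕ := fun q t => p ^ (J - q.1) * y q t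
  have hkJ : 1 ≤ k * J := Nat.mul_pos (by omega) (by omega)
  have hcard : P.card * p ^ (j + 1) = J * (p ^ (k * J)) ^ k := by
    rw [card_sigma, sum_mul, sum_congr rfl (g := fun _ => (p ^ (k * J)) ^ k)]
    · simp
    · intro i hi
      have hi := mem_range.1 hi
      have : k * i ≤ k * J := Nat.mul_le_mul_left _ hi.le
      simp only [card_product, card_range, Fintype.card_piFinset, prod_const, card_univ,
        Fintype.card_fin, ← pow_mul, ← pow_add]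
      congr 1
      zify [show k * i ≤ k * J + i by omega, show 1 ≤ k * J + i by omega]
      rw [hk]; push_cast; ring
  have hmaps : ∀ q ∈ P, ∑ t, g q t ^ k ∈
      (range (k * (p ^ (k * J)) ^ k + 1)).image (fun n => p ^ (k * J) * n) := by
    rintro ⟨i, a, b⟩ hq
    simp only [P, mem_sigma, mem_range, mem_product, Fintype.mem_piFinset] at hq
    obtain ⟨hi, ha, hb⟩ := hq
    have hki : k * i ≤ k * J := Nat.mul_le_mul_left _ hi.le
    have hy : ∀ t, y ⟨i, a, b⟩ t ≤ p ^ (k * J) * p ^ i := by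
      intro t
      rw [← pow_add]
      refine Fin.cases ?_ (fun s => ?_) t
      · simp only [y, Fin.cons_zero]
        have := hz (k * i) b
        calc _ ≤ p ^ (k * i) * (a + 1) := by rw [mul_add]; omega
          _ ≤ p ^ (k * i) * p ^ (k * J + i - k * i) := Nat.mul_le_mul_left _ ha
          _ = _ := by rw [← pow_add]; congr 1; omega
      · simp only [y, Fin.cons_succ, w]
        calc _ ≤ p * (b s + 1) := by rw [mul_add]; split_ifs <;> omega
          _ ≤ p * p ^ (k * J + i - 1) := Nat.mul_le_mul_left _ (hb s)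
          _ = _ := by rw [← pow_succ']; congr 1; omega
    have hd : p ^ (k * i) ∣ ∑ t, y ⟨i, a, b⟩ t ^ k := by
      zify
      rw [Fin.sum_univ_succ]
      simp only [y, Fin.cons_zero, Fin.cons_succ]
      have h1 := hz' (k * i) b
      have h2 : ((p : ℤ) ^ (k * i)) ∣ ((p ^ (k * i) * a + z (k * i) b : ℕ) : ℤ) ^ k -
          (z (k * i) b : ℤ) ^ k :=
        (Dvd.intro (a : ℤ) (by push_cast; ring)).trans (sub_dvd_pow_sub_pow _ _ k)
      have h3 := dvd_add h2 h1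
      rw [sub_add_sub_cancel, sub_neg_eq_add] at h3
      exact h3
    obtain ⟨n, hn⟩ := hd
    have hs : ∑ t, y ⟨i, a, b⟩ t ^ k ≤ p ^ (k * i) * (k * (p ^ (k * J)) ^ k) := by
      refine (sum_le_card_nsmul _ _ ((p ^ (k * J) * p ^ i) ^ k)
        fun t _ => Nat.pow_le_pow_left (hy t) k).trans (le_of_eq ?_)
      simp only [card_univ, Fintype.card_fin, smul_eq_mul, ← hk]
      ring
    rw [hn] at hs
    refine mem_image.2 ⟨n, mem_range.2 (Nat.lt_succ_of_le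
      (Nat.le_of_mul_le_mul_left hs (by positivity))), ?_⟩
    simp only [g, mul_pow, ← mul_sum, hn]
    rw [← pow_mul, ← mul_assoc, ← pow_add]
    congr 2
    zify [hi.le]; ring
  obtain ⟨N, -, hN⟩ := exists_lt_card_fiber_of_mul_lt_card_of_maps_to (n := M) hmaps (by
    refine lt_of_le_of_lt (Nat.mul_le_mul_right _ card_image_le) ?_
    rw [card_range]
    refine Nat.lt_of_mul_lt_mul_right (a := p ^ (j + 1)) ?_
    have h1 : 1 ≤ (p ^ (k * J)) ^ k := Nat.one_le_pow _ _ (by positivity)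
    rw [hcard]
    generalize (p ^ (k * J)) ^ k = X at h1 ⊢
    rw [hJ]
    have := Nat.mul_le_mul_right (M * p ^ (j + 1)) h1
    nlinarith)
  refine ⟨N, (P.filter fun q => ∑ t, g q t ^ k = N).image g, ?_, ?_⟩
  · rw [card_image_of_injOn]; exact hN
    rintro ⟨i, a, b⟩ hq ⟨i', a', b'⟩ hq' h
    simp only [coe_filter, P, mem_sigma, mem_range, Set.mem_setOf_eq] at hq hq'
    have h1 := congrFun h (Fin.succ 0)
    simp only [g, y, Fin.cons_succ, w, if_true] at h1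
    have key : ∀ c d e f : ℕ, c < d → p ^ c * (p * e + k) ≠ p ^ d * (p * f + k) := by
      intro c d e f hcd h
      obtain ⟨r, rfl⟩ := Nat.exists_eq_add_of_lt hcd
      rw [add_assoc, pow_add, mul_assoc] at h
      have h2 := Nat.eq_of_mul_eq_mul_left (by positivity) h
      have h3 : p ∣ p * e + k := h2 ▸ Dvd.dvd.mul_right (dvd_pow_self p (by omega)) _
      have := Nat.le_of_dvd (by omega) ((Nat.dvd_add_right (dvd_mul_right p e)).1 h3)
      omega
    obtain rfl : i = i' := by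
      have := hq.1.1; have := hq'.1.1
      rcases lt_trichotomy (J - i) (J - i') with h2 | h2 | h2
      · exact absurd h1 (key _ _ _ _ h2)
      · omega
      · exact absurd h1.symm (key _ _ _ _ h2)
    obtain rfl : b = b' := by
      funext s
      have h2 := congrFun h s.succ
      simp only [g, y, Fin.cons_succ, w] at h2
      have h3 := Nat.eq_of_mul_eq_mul_left (by positivity) h2
      exact Nat.eq_of_mul_eq_mul_left hp0 (Nat.add_right_cancel h3)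
    have h2 := congrFun h 0
    simp only [g, y, Fin.cons_zero] at h2
    have h3 := Nat.eq_of_mul_eq_mul_left (by positivity) h2
    rw [Nat.eq_of_mul_eq_mul_left (by positivity) (Nat.add_right_cancel h3)]
  · intro x hx
    obtain ⟨q, hq, rfl⟩ := mem_image.1 hx
    refine ⟨hk ▸ (mem_filter.1 hq).2, ?_⟩
    show 0 < g q (Fin.succ 0)
    simp only [g, y, Fin.cons_succ, w, if_true]
    exact Nat.mul_pos (by positivity) (by omega)

theorem eq_case (j : ℕ) : ¬ Holds (j + 2) (j + 2) := by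
  classical
  rintro ⟨c, C, r₀, hc, hC, H⟩
  obtain ⟨T, hT⟩ := exists_nat_gt (max (max C r₀) 1)
  have t1 : (1 : ℝ) < T := lt_of_le_of_lt (le_max_right _ _) hT
  have tC : C < T := lt_of_le_of_lt ((le_max_left _ _).trans (le_max_left _ _)) hT
  have tr : r₀ < T := lt_of_le_of_lt ((le_max_right _ _).trans (le_max_left _ _)) hT
  have T0 : (0 : ℤ) < T := by exact_mod_cast (zero_lt_one.trans t1)
  obtain ⟨N, F, hF, hx⟩ := many j T
  let f : (Fin (j + 2) → ℕ) → Fin (j + 2) → ℤ := fun x t => T * x t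
  have hf : Function.Injective f := fun x x' h => funext fun t => by
    exact_mod_cast mul_left_cancel₀ T0.ne' (congrFun h t)
  have hmem : ∀ x ∈ F, f x ∈ S (j + 2) (j + 2) (T ^ (j + 2) * N) := fun x h => by
    simp only [S, Set.mem_setOf_eq, f, abs_mul, Nat.abs_cast, mul_pow, ← mul_sum]
    rw [← (hx x h).1]; push_cast; rfl
  obtain ⟨x, hxF⟩ := card_pos.1 (lt_of_le_of_lt (Nat.zero_le _) hF)
  have hN : 1 ≤ N := by
    rw [← (hx x hxF).1]
    exact (Nat.one_le_pow _ _ (hx x hxF).2).trans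
      (single_le_sum (f := fun t => x t ^ (j + 2)) (fun _ _ => Nat.zero_le _) (mem_univ 1))
  have hcard : F.card ≤ (S (j + 2) (j + 2) (T ^ (j + 2) * N)).ncard := by
    have := Set.ncard_le_ncard (s := f '' F) (by rintro _ ⟨s, hs, rfl⟩; exact hmem s hs)
      (S_fin (by norm_num) _ _)
    rwa [Set.ncard_image_of_injective _ hf, Set.ncard_coe_finset] at this
  have hs1 : (1 : ℝ) ≤ (N : ℝ) ^ (((j + 2 : ℕ) : ℝ)⁻¹) :=
    Real.one_le_rpow (by exact_mod_cast hN) (by positivity)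
  have h1 := (H (T * (N : ℝ) ^ (((j + 2 : ℕ) : ℝ)⁻¹)) (T ^ (j + 2) * N) (by nlinarith)
    (by rw [mul_pow, Real.rpow_inv_natCast_pow (by positivity) (by omega)]; push_cast; ring)
    ⟨_, hmem x hxF⟩ (by nlinarith)).2
  have h2 : (T : ℝ) < (S (j + 2) (j + 2) (T ^ (j + 2) * N)).ncard := by
    exact_mod_cast hF.trans_le hcard
  simp only [sub_self, zpow_zero, mul_one] at h1
  linarith

end H11.KSph

namespace Pool.Agent.Results.MP_927be3_nt.Local

open H11.KSph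

theorem aux :
    (∀ k d : ℕ, 2 ≤ k → 0 < d → d ≤ k → ¬ Holds k d) ∧
    (∀ k d p g : ℕ, 2 ≤ k → 1 < p → g ≤ k →
      (∀ x : ℤ, ¬ (p : ℤ) ∣ x → (p : ℤ) ^ g ∣ |x| ^ k - 1) → 0 < d → d < p ^ g → ¬ Holds k d) ∧
    (∀ a d : ℕ, 2 ≤ a → 0 < d → d < 4 * 2 ^ a → ¬ Holds (2 ^ a) d) := by
  have Z : ∀ k d : ℕ, 2 ≤ k → 0 < d → d ≤ k → ¬ Holds k d := by
    intro k d hk hd h
    rcases h.eq_or_lt with rfl | h
    · obtain ⟨j, rfl⟩ := Nat.exists_eq_add_of_le' hk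
      exact eq_case j
    · exact small hd h
  have A : ∀ k d p g : ℕ, 2 ≤ k → 1 < p → g ≤ k →
      (∀ x : ℤ, ¬ (p : ℤ) ∣ x → (p : ℤ) ^ g ∣ |x| ^ k - 1) → 0 < d → d < p ^ g → ¬ Holds k d := by
    intro k d p g hk hp hg hu hd hdp
    rcases le_or_gt d k with h | h
    · exact Z k d hk hd h
    · exact large hp (by omega) hg h hdp hu
  refine ⟨Z, A, fun a d ha hd h4 => ?_⟩
  obtain ⟨b, rfl⟩ : ∃ b, a = b + 2 := ⟨a - 2, by omega⟩
  have := Nat.lt_two_pow_self (n := b)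
  refine A _ d 2 (b + 4) (by rw [pow_add]; omega) (by norm_num) ?_ (fun x hx => ?_) hd
    (by rw [pow_add] at h4 ⊢; omega)
  · rw [pow_add]; omega
  · exact_mod_cast two_pow (b + 1) x (by exact_mod_cast hx)

theorem result (k d p g : ℕ) (hk : 2 ≤ k) (hp : 1 < p) (hg : g ≤ k)
    (hu : ∀ x : ℤ, ¬ (p : ℤ) ∣ x → (p : ℤ) ^ g ∣ |x| ^ k - 1) (hd : 0 < d)
    (h : d < max (k + 1) (p ^ g)) : ¬ Holds k d :=
  (lt_max_iff.1 h).elim (fun h => aux.1 k d hk hd (by omega)) (aux.2.1 k d p g hk hp hg hu hd)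

end Pool.Agent.Results.MP_927be3_nt.Local
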